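import Pool.Agent.H73.GMS.Stmts

/-! # Board gms (MP_213ba5_lc), row RED: reduction of words is primitive recursive -/

set_option autoImplicit false

namespace GMS

/-- one step of the reduction -/
def redStep {k : ℕ} (a : Fin k × Bool) (t : List (Fin k × Bool)) : List (Fin k × Bool) :=
  List.casesOn t [a] fun b l => if a.1 = b.1 ∧ a.2 = !b.2 then l else a :: b :: l

theorem reduce_eq_foldr {k : ℕ} (L : List (Fin k × Bool)) :
    L.foldr redStep [] = FreeGroup.reduce L := by
  induction L with
  | nil => rfl
  | cons a L ih =>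
    rw [List.foldr_cons, ih, FreeGroup.reduce.cons]
    rfl

theorem redStep_primrec (k : ℕ) :
    Primrec₂ (fun (_ : List (Fin k × Bool)) (p : (Fin k × Bool) × List (Fin k × Bool)) =>
      redStep p.1 p.2) := by
  have h1 : Primrec (fun x : List (Fin k × Bool) × ((Fin k × Bool) × List (Fin k × Bool)) =>
      x.2.2) := Primrec.snd.comp Primrec.snd
  have h2 : Primrec (fun x : List (Fin k × Bool) × ((Fin k × Bool) × List (Fin k × Bool)) =>
      [x.2.1]) :=
    Primrec.list_cons.comp (Primrec.fst.comp Primrec.snd) (Primrec.const [])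
  have h3 : Primrec₂ (fun (x : List (Fin k × Bool) × ((Fin k × Bool) × List (Fin k × Bool)))
      (q : (Fin k × Bool) × List (Fin k × Bool)) =>
      if x.2.1.1 = q.1.1 ∧ x.2.1.2 = !q.1.2 then q.2 else x.2.1 :: q.1 :: q.2) := by
    have ha : Primrec (fun y : (List (Fin k × Bool) × ((Fin k × Bool) × List (Fin k × Bool))) ×
        ((Fin k × Bool) × List (Fin k × Bool)) => y.1.2.1) :=
      Primrec.fst.comp (Primrec.snd.comp Primrec.fst)
    have hb : Primrec (fun y : (List (Fin k × Bool) × ((Fin k × Bool) × List (Fin k × Bool))) ×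
        ((Fin k × Bool) × List (Fin k × Bool)) => y.2.1) :=
      Primrec.fst.comp Primrec.snd
    have hl : Primrec (fun y : (List (Fin k × Bool) × ((Fin k × Bool) × List (Fin k × Bool))) ×
        ((Fin k × Bool) × List (Fin k × Bool)) => y.2.2) :=
      Primrec.snd.comp Primrec.snd
    have hc1 : PrimrecPred (fun y : (List (Fin k × Bool) ×
        ((Fin k × Bool) × List (Fin k × Bool))) × ((Fin k × Bool) × List (Fin k × Bool)) =>
        y.1.2.1.1 = y.2.1.1) :=
      Primrec.eq.comp (Primrec.fst.comp ha) (Primrec.fst.comp hb)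
    have hc2 : PrimrecPred (fun y : (List (Fin k × Bool) ×
        ((Fin k × Bool) × List (Fin k × Bool))) × ((Fin k × Bool) × List (Fin k × Bool)) =>
        y.1.2.1.2 = !y.2.1.2) :=
      Primrec.eq.comp (Primrec.snd.comp ha) (Primrec.not.comp (Primrec.snd.comp hb))
    exact Primrec.ite (hc1.and hc2) hl
      (Primrec.list_cons.comp ha (Primrec.list_cons.comp hb hl))
  exact Primrec.list_casesOn h1 h2 h3

theorem RED (k : ℕ) : REDStmt k := by
  have h := Primrec.list_foldr (f := fun L : List (Fin k × Bool) => L)
    (g := fun _ => ([] : List (Fin k × Bool))) Primrec.id (Primrec.const [])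
    (redStep_primrec k)
  exact h.of_eq fun L => reduce_eq_foldr L

end GMS
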